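import Pool.Agent.Helper41.Cluster4.Defs

/-! Orbit-stabilizer counting for groups of linear isometries. -/

namespace Pool.Agent.Helper41.Cluster4

open Module Pool.Agent.Helper65.Delone
open scoped RealInnerProductSpace

variable {E : Type*} [NormedAddCommGroup E] [InnerProductSpace ℝ E]

/-- A group of linear isometries acts on the space. -/
@[reducible] def actGrp (G : Subgroup (E ≃ₗᵢ[ℝ] E)) : MulAction G E where
  smul A v := (A : E ≃ₗᵢ[ℝ] E) v
  one_smul _ := rfl
  mul_smul _ _ _ := rfl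

/-- The orbit of `v`. -/
def orb (G : Subgroup (E ≃ₗᵢ[ℝ] E)) (v : E) : Set E := {w | ∃ A ∈ G, A v = w}

theorem mem_orb_self (G : Subgroup (E ≃ₗᵢ[ℝ] E)) (v : E) : v ∈ orb G v := ⟨1, G.one_mem, rfl⟩

theorem orb_map {G : Subgroup (E ≃ₗᵢ[ℝ] E)} {v w : E} (hw : w ∈ orb G v) {A : E ≃ₗᵢ[ℝ] E}
    (hA : A ∈ G) : A w ∈ orb G v := by
  obtain ⟨B, hB, rfl⟩ := hw
  exact ⟨A * B, G.mul_mem hA hB, rfl⟩

theorem orb_symm {G : Subgroup (E ≃ₗᵢ[ℝ] E)} {v w : E} (hw : w ∈ orb G v) : v ∈ orb G w := by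
  obtain ⟨B, hB, rfl⟩ := hw
  exact ⟨B⁻¹, G.inv_mem hB, B.symm_apply_apply v⟩

theorem orb_finite {G : Subgroup (E ≃ₗᵢ[ℝ] E)} (hG : Finite G) (v : E) : (orb G v).Finite := by
  have h : orb G v = Set.range (fun A : G => (A : E ≃ₗᵢ[ℝ] E) v) := by
    ext w
    constructor
    · rintro ⟨A, hA, rfl⟩
      exact ⟨⟨A, hA⟩, rfl⟩
    · rintro ⟨A, rfl⟩
      exact ⟨A, A.2, rfl⟩
  rw [h]
  exact Set.finite_range _

/-- Orbit-stabilizer. -/
theorem ncard_orb_mul {G : Subgroup (E ≃ₗᵢ[ℝ] E)} (hG : Finite G) (v : E) :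
    (orb G v).ncard * Nat.card (stb G v) = Nat.card G := by
  letI := actGrp G
  have h1 : orb G v = MulAction.orbit G v := by
    ext w
    constructor
    · rintro ⟨A, hA, rfl⟩
      exact ⟨⟨A, hA⟩, rfl⟩
    · rintro ⟨A, rfl⟩
      exact ⟨A, A.2, rfl⟩
  have h2 : Nat.card (stb G v) = Nat.card (MulAction.stabilizer G v) := by
    apply Nat.card_congr
    refine
      { toFun := fun A => ⟨⟨A, A.2.1⟩, A.2.2⟩
        invFun := fun A => ⟨A.1.1, A.1.2, A.2⟩
        left_inv := fun A => rfl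
        right_inv := fun A => rfl }
  rw [h1, h2, ← Nat.card_coe_set_eq, ← Nat.card_prod]
  exact Nat.card_congr (MulAction.orbitProdStabilizerEquivGroup G v)

/-- The order of a group is at most the size of an invariant set times the order of a
stabilizer. -/
theorem card_le_mul_stb {G : Subgroup (E ≃ₗᵢ[ℝ] E)} (hG : Finite G) (v : E) {s : Set E}
    (hs : s.Finite) (h : ∀ A ∈ G, A v ∈ s) : Nat.card G ≤ s.ncard * Nat.card (stb G v) := by
  rw [← ncard_orb_mul hG v]
  apply Nat.mul_le_mul_right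
  apply Set.ncard_le_ncard _ hs
  rintro w ⟨A, hA, rfl⟩
  exact h A hA

theorem finite_stb {G : Subgroup (E ≃ₗᵢ[ℝ] E)} (hG : Finite G) (v : E) : Finite (stb G v) := by
  have : Function.Injective (fun A : stb G v => (⟨A, A.2.1⟩ : G)) := by
    intro A B h
    have := congrArg Subtype.val h
    exact Subtype.ext this
  exact Finite.of_injective _ this

theorem finite_rt {G : Subgroup (E ≃ₗᵢ[ℝ] E)} (hG : Finite G) : Finite (rt G) := by
  have : Function.Injective (fun A : rt G => (⟨A, A.2.1⟩ : G)) := by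
    intro A B h
    have := congrArg Subtype.val h
    exact Subtype.ext this
  exact Finite.of_injective _ this

/-- An invariant finite set is mapped onto itself. -/
theorem inv_iff {G : Subgroup (E ≃ₗᵢ[ℝ] E)} {N : Set E} (h : Inv G N) {A : E ≃ₗᵢ[ℝ] E}
    (hA : A ∈ G) (v : E) : A v ∈ N ↔ v ∈ N := by
  constructor
  · intro hv
    have := h A⁻¹ (G.inv_mem hA) (A v) hv
    have h2 : A⁻¹ (A v) = v := A.symm_apply_apply v
    rwa [h2] at this
  · exact h A hA v

end Pool.Agent.Helper41.Cluster4
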