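import Pool.Agent.Helper41.Cluster4.Goals
import Pool.Agent.Helper41.Cluster4.Tools
import Pool.Agent.Helper65.Delone.Small

/-! Assembly: from the steps to the upper bound. -/

namespace Pool.Agent.Helper41.Cluster4

open Module Pool.Agent.Helper65.Delone
open scoped RealInnerProductSpace

section

variable {E : Type*} [NormedAddCommGroup E] [InnerProductSpace ℝ E]

theorem noSmall (hF : ExFr E) (hI : CaseI4 E) (hII : CaseII4 E) : NoSmall E := by
  intro hd X D R hD h hcong x hx A hA hA1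
  by_contra hcon
  push Not at hcon
  obtain ⟨W, Q, F⟩ := hF hd X D R hD h hcong x hx ⟨A, hA, hA1, hcon⟩
  rcases lt_or_ge (2 * R) (15 / 2 * W) with hlt | hge
  · exact hI hd X D R W Q hD h F hlt ⟨x, hx⟩
  · exact hII hd X D R W Q hD h F hge ⟨x, hx⟩

/-- The group of all linear isometries preserving the cluster at `x`. -/
def isoGrp (X : Set E) (L : ℝ) (x : E) : Subgroup (E ≃ₗᵢ[ℝ] E) where
  carrier := {A | Iso X L x x A}
  mul_mem' := by
    intro A B hA hB
    exact hB.trans hA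
  one_mem' := by
    intro v hv
    exact Iff.rfl
  inv_mem' := by
    intro A hA
    exact hA.symm

variable [FiniteDimensional ℝ E]

theorem upper (hf : FiniteNear E) (hp : ExistsPos E) (hS : NoSmall E) (hL : Low E) (hT : Top E) :
    Upper E := by
  intro hd X D R hD h hcong x hx G hG
  have hnt : Nontrivial E := by
    apply Module.nontrivial_of_finrank_pos (R := ℝ)
    omega
  set K : Set E := {v | x + v ∈ X ∧ ‖v‖ ≤ 2 * R} with hK
  have hKfin : K.Finite := by
    have h1 := hf X D hD h.sep x (2 * R)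
    have h2 : K ⊆ (fun z => z - x) '' {z | z ∈ X ∧ ‖x - z‖ ≤ 2 * R} := by
      intro v hv
      refine ⟨x + v, ⟨hv.1, ?_⟩, by simp⟩
      have : x - (x + v) = -v := by abel
      rw [this, norm_neg]
      exact hv.2
    exact (h1.image _).subset h2
  have hGK : ∀ A ∈ G, ∀ v ∈ K, A v ∈ K := by
    intro A hA v hv
    refine ⟨(hG A hA v hv.2).1 hv.1, ?_⟩
    rw [LinearIsometryEquiv.norm_map]
    exact hv.2
  have hspan : ∀ A : E ≃ₗᵢ[ℝ] E, (∀ v ∈ K, A v = v) → A = 1 := by
    intro A hA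
    by_contra hne
    have hlt : fixSpace A ≠ ⊤ := by
      intro htop
      apply hne
      ext v
      have : v ∈ fixSpace A := by rw [htop]; trivial
      exact this
    have hbot : (fixSpace A)ᗮ ≠ ⊥ := by
      intro hb
      apply hlt
      rw [Submodule.orthogonal_eq_bot_iff] at hb
      exact hb
    obtain ⟨u, hu, hu0⟩ := Submodule.exists_mem_ne_zero_of_ne_bot hbot
    obtain ⟨z, hz, hzn, hzp⟩ := hp X D R hD h x u hx hu0
    have hzK : z - x ∈ K := by
      refine ⟨?_, hzn⟩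
      rw [add_sub_cancel]
      exact hz
    have h1 : z - x ∈ fixSpace A := hA _ hzK
    have h2 := (Submodule.mem_orthogonal (fixSpace A) u).1 hu _ h1
    linarith
  have hGfin : Finite G := by
    have : Finite K := hKfin
    let f : G → (K → K) := fun A v => ⟨(A : E ≃ₗᵢ[ℝ] E) v, hGK A A.2 v v.2⟩
    apply Finite.of_injective f
    intro A B hAB
    have h1 : ∀ v ∈ K, ((B : E ≃ₗᵢ[ℝ] E)⁻¹ * (A : E ≃ₗᵢ[ℝ] E)) v = v := by
      intro v hv
      have h2 := congrFun hAB ⟨v, hv⟩
      have h3 : (A : E ≃ₗᵢ[ℝ] E) v = (B : E ≃ₗᵢ[ℝ] E) v := congrArg Subtype.val h2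
      change (B : E ≃ₗᵢ[ℝ] E).symm ((A : E ≃ₗᵢ[ℝ] E) v) = v
      rw [h3, LinearIsometryEquiv.symm_apply_apply]
    have h4 := hspan _ h1
    have h5 : (A : E ≃ₗᵢ[ℝ] E) = B := by
      rw [inv_mul_eq_one] at h4
      exact h4.symm
    exact Subtype.ext h5
  refine ⟨hGfin, ?_⟩
  -- the minimal distance
  have hKne : (K \ {0}).Nonempty := by
    obtain ⟨u, hu⟩ := exists_ne (0 : E)
    obtain ⟨z, hz, hzn, hzp⟩ := hp X D R hD h x u hx hu
    refine ⟨z - x, ⟨?_, hzn⟩, ?_⟩
    · rw [add_sub_cancel]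
      exact hz
    · intro h0
      have h0' : z - x = 0 := h0
      rw [h0', inner_zero_left] at hzp
      exact lt_irrefl _ hzp
  obtain ⟨v0, hv0, hmin⟩ := Set.exists_min_image (K \ {0}) (fun v => ‖v‖)
    (hKfin.subset Set.diff_subset) hKne
  set r0 : ℝ := ‖v0‖ with hr0
  have hr0pos : 0 < r0 := norm_pos_iff.2 hv0.2
  have hr0le : r0 ≤ 2 * R := hv0.1.2
  have hsepX : ∀ p ∈ X, ∀ q ∈ X, p ≠ q → r0 ≤ ‖p - q‖ := by
    intro p hp' q hq hpq
    by_contra hlt
    push Not at hlt
    obtain ⟨B, hB⟩ := hcong p hp' x hx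
    have h1 := (hB (q - p) (by rw [← norm_neg, neg_sub]; linarith)).1
      (by rw [add_sub_cancel]; exact hq)
    have hne : B (q - p) ≠ 0 := by
      intro h0
      have h2 : ‖B (q - p)‖ = 0 := by rw [h0, norm_zero]
      rw [LinearIsometryEquiv.norm_map, norm_eq_zero, sub_eq_zero] at h2
      exact hpq h2.symm
    have h3 := hmin (B (q - p)) ⟨⟨h1, by
      rw [LinearIsometryEquiv.norm_map, ← norm_neg, neg_sub]; linarith⟩, hne⟩
    simp only [LinearIsometryEquiv.norm_map] at h3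
    rw [← norm_neg, neg_sub] at hlt
    linarith
  set N : Set E := {v | ‖v‖ = 1 ∧ x + r0 • v ∈ X} with hN
  have hNfin : N.Finite := by
    have h2 : N ⊆ (fun w => r0⁻¹ • w) '' K := by
      intro v hv
      refine ⟨r0 • v, ⟨hv.2, ?_⟩, ?_⟩
      · rw [norm_smul, hv.1, mul_one, Real.norm_eq_abs, abs_of_pos hr0pos]
        exact hr0le
      · change r0⁻¹ • r0 • v = v
        rw [smul_smul, inv_mul_cancel₀ hr0pos.ne', one_smul]
    exact (hKfin.image _).subset h2
  have hU : UCode N := by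
    refine ⟨hNfin, fun v hv => hv.1, ?_⟩
    intro v hv w hw hvw
    have h1 : r0 ≤ ‖(x + r0 • v) - (x + r0 • w)‖ := by
      apply hsepX _ hv.2 _ hw.2
      intro heq
      apply hvw
      have h2 : r0 • v = r0 • w := add_left_cancel heq
      exact smul_right_injective E hr0pos.ne' h2
    have h2 : (x + r0 • v) - (x + r0 • w) = r0 • (v - w) := by
      rw [smul_sub]; abel
    rw [h2, norm_smul, Real.norm_eq_abs, abs_of_pos hr0pos] at h1
    have h3 : 1 ≤ ‖v - w‖ := by
      by_contra hlt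
      push Not at hlt
      nlinarith
    have h4 := norm_sub_sq_real v w
    rw [hv.1, hw.1] at h4
    nlinarith
  have hInv : Inv G N := by
    intro A hA v hv
    refine ⟨by rw [LinearIsometryEquiv.norm_map]; exact hv.1, ?_⟩
    have h1 := (hG A hA (r0 • v) (by
      rw [norm_smul, hv.1, mul_one, Real.norm_eq_abs, abs_of_pos hr0pos]
      exact hr0le)).1 hv.2
    rw [map_smul] at h1
    exact h1
  have hNne : N.Nonempty := by
    refine ⟨r0⁻¹ • v0, ?_, ?_⟩
    · rw [norm_smul, norm_inv, Real.norm_eq_abs, abs_of_pos hr0pos]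
      exact inv_mul_cancel₀ hr0pos.ne'
    · rw [smul_smul, mul_inv_cancel₀ hr0pos.ne', one_smul]
      exact hv0.1.1
  by_cases hsp : Submodule.span ℝ N = ⊤
  · exact hT hd G N hGfin hU hInv hsp
  · exact hL hd G N hGfin hU hInv hNne
      (fun A hA hA1 => hS hd X D R hD h hcong x hx A (hG A hA) hA1) hsp

end

theorem clusterGroup_le (hU : Upper (EuclideanSpace ℝ (Fin 4)))
    {X : Set (EuclideanSpace ℝ (Fin 4))} {r R : ℝ} (h : IsDelaunay X r R)
    (hc : MutuallyCongruent X (2 * R)) {x : EuclideanSpace ℝ (Fin 4)} (hx : x ∈ X) :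
    Finite (clusterGroup X x (2 * R)) ∧ Nat.card (clusterGroup X x (2 * R)) ≤ 1152 := by
  have h1 := hU (by simp) X (2 * r) R (by linarith [h.r_pos]) h.sepDense hc.iso x hx
    (isoGrp X (2 * R) x) (fun A hA => hA)
  obtain ⟨hfin, hcard⟩ := h1
  let f : clusterGroup X x (2 * R) → isoGrp X (2 * R) x :=
    fun g => ⟨lin g.1 x x g.2.1, lin_iso g.2.1 g.2.2⟩
  have hf : Function.Injective f := by
    intro a b hab
    have h2 : lin a.1 x x a.2.1 = lin b.1 x x b.2.1 := congrArg Subtype.val hab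
    exact Subtype.ext (lin_injective a.2.1 b.2.1 h2)
  have hfin2 : Finite (clusterGroup X x (2 * R)) := Finite.of_injective f hf
  exact ⟨hfin2, (Nat.card_le_card_of_injective f hf).trans hcard⟩

theorem final (hU : Upper (EuclideanSpace ℝ (Fin 4))) (hD : D4Del) (hC : D4Card) :
    (∀ (X : Set (EuclideanSpace ℝ (Fin 4))) (r R : ℝ), IsDelaunay X r R →
      MutuallyCongruent X (2 * R) → ∀ x ∈ X, Finite (clusterGroup X x (2 * R))) ∧
    IsGreatest {n : ℕ | ∃ (X : Set (EuclideanSpace ℝ (Fin 4))) (r R : ℝ)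
      (x : EuclideanSpace ℝ (Fin 4)), IsDelaunay X r R ∧ MutuallyCongruent X (2 * R) ∧ x ∈ X ∧
        n = Nat.card (clusterGroup X x (2 * R))} 1152 := by
  refine ⟨fun X r R h hc x hx => (clusterGroup_le hU h hc hx).1, ?_, ?_⟩
  · have h0 : (0 : EuclideanSpace ℝ (Fin 4)) ∈ D4 := ⟨fun _ => 0, by simp, by simp⟩
    refine ⟨D4, Real.sqrt 2 / 2, 1, 0, hD.1, hD.2 _, h0, ?_⟩
    obtain ⟨hfin, hle⟩ := clusterGroup_le hU hD.1 (hD.2 _) h0
    apply le_antisymm _ hle
    obtain ⟨f, hf⟩ := hC (2 * 1)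
    have := Nat.card_le_card_of_injective f hf
    simpa using this
  · rintro n ⟨X, r, R, x, h, hc, hx, rfl⟩
    exact (clusterGroup_le hU h hc hx).2

end Pool.Agent.Helper41.Cluster4
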