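import Pool.Agent.Helper41.Cluster4.Goals

/-! Packet DA: the checkerboard lattice is a Delaunay set with congruent clusters. -/

namespace Pool.Agent.Helper41.Cluster4

open Module Pool.Agent.Helper65.Delone
open scoped RealInnerProductSpace

theorem D4.sub_mem {x y : EuclideanSpace ℝ (Fin 4)} (hx : x ∈ D4) (hy : y ∈ D4) : x - y ∈ D4 := by
  obtain ⟨n, hn, he⟩ := hx
  obtain ⟨m, hm, hf⟩ := hy
  refine ⟨fun i => n i - m i, fun i => ?_, ?_⟩
  · rw [PiLp.sub_apply, hn, hm]; push_cast; ring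
  · rw [Finset.sum_sub_distrib]
    exact he.sub hf

theorem D4.add_mem {x y : EuclideanSpace ℝ (Fin 4)} (hx : x ∈ D4) (hy : y ∈ D4) : x + y ∈ D4 := by
  obtain ⟨n, hn, he⟩ := hx
  obtain ⟨m, hm, hf⟩ := hy
  refine ⟨fun i => n i + m i, fun i => ?_, ?_⟩
  · rw [PiLp.add_apply, hn, hm]; push_cast; ring
  · rw [Finset.sum_add_distrib]
    exact he.add hf

theorem D4.two_le {x : EuclideanSpace ℝ (Fin 4)} (hx : x ∈ D4) (h0 : x ≠ 0) : 2 ≤ ‖x‖ ^ 2 := by
  obtain ⟨n, hn, he⟩ := hx
  have h1 : ‖x‖ ^ 2 = ((∑ i, n i ^ 2 : ℤ) : ℝ) := by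
    rw [EuclideanSpace.norm_sq_eq]
    push_cast
    apply Finset.sum_congr rfl
    intro i _
    rw [hn, Real.norm_eq_abs, sq_abs]
  have h2 : Even (∑ i, n i ^ 2) := by
    have h3 : Even (∑ i, n i ^ 2 - ∑ i, n i) := by
      rw [← Finset.sum_sub_distrib]
      apply Finset.even_sum
      intro i _
      have : n i ^ 2 - n i = n i * (n i - 1) := by ring
      rw [this]
      exact Int.even_mul_pred_self (n i)
    have h4 := h3.add he
    rwa [sub_add_cancel] at h4
  have h5 : 0 < ∑ i, n i ^ 2 := by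
    have h6 : 0 < ‖x‖ ^ 2 := by positivity
    rw [h1] at h6
    exact_mod_cast h6
  have h7 : 2 ≤ ∑ i, n i ^ 2 := by
    obtain ⟨k, hk⟩ := h2
    omega
  rw [h1]
  exact_mod_cast h7

theorem D4.cover (q : EuclideanSpace ℝ (Fin 4)) : ∃ x ∈ D4, ‖x - q‖ ≤ 1 := by
  classical
  set n : Fin 4 → ℤ := fun i => round (q i) with hn
  have he : ∀ i, |q i - n i| ≤ 1 / 2 := fun i => abs_sub_round (q i)
  by_cases hev : Even (∑ i, n i)
  · refine ⟨WithLp.toLp 2 (fun i => (n i : ℝ)), ⟨n, fun i => rfl, hev⟩, ?_⟩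
    have h1 : ‖(WithLp.toLp 2 (fun i => (n i : ℝ)) : EuclideanSpace ℝ (Fin 4)) - q‖ ^ 2 ≤ 1 := by
      rw [EuclideanSpace.norm_sq_eq]
      have h2 : ∀ i, ‖((WithLp.toLp 2 (fun i => (n i : ℝ)) : EuclideanSpace ℝ (Fin 4)) - q) i‖ ^ 2
          ≤ 1 / 4 := by
        intro i
        have h3 : ((WithLp.toLp 2 (fun i => (n i : ℝ)) : EuclideanSpace ℝ (Fin 4)) - q) i =
          n i - q i := rfl
        rw [h3, Real.norm_eq_abs, abs_sub_comm]
        have := he i
        have h0 := abs_nonneg (q i - n i)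
        nlinarith
      calc ∑ i, ‖((WithLp.toLp 2 (fun i => (n i : ℝ)) : EuclideanSpace ℝ (Fin 4)) - q) i‖ ^ 2
          ≤ ∑ i : Fin 4, (1 / 4 : ℝ) := Finset.sum_le_sum (fun i _ => h2 i)
        _ = 1 := by simp
    have h0 := norm_nonneg ((WithLp.toLp 2 (fun i => (n i : ℝ)) : EuclideanSpace ℝ (Fin 4)) - q)
    nlinarith
  · obtain ⟨j, -, hj⟩ := Finset.exists_max_image Finset.univ (fun i => |q i - n i|)
      Finset.univ_nonempty
    -- the step
    obtain ⟨s, hs1, hs2⟩ : ∃ s : ℤ, (s = 1 ∨ s = -1) ∧ |q j - n j - s| = 1 - |q j - n j| := by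
      rcases le_total 0 (q j - n j) with h | h
      · refine ⟨1, Or.inl rfl, ?_⟩
        have h1 := he j
        rw [abs_of_nonneg h] at h1 ⊢
        push_cast
        rw [abs_of_nonpos (by linarith)]
        ring
      · refine ⟨-1, Or.inr rfl, ?_⟩
        have h1 := he j
        rw [abs_of_nonpos h] at h1 ⊢
        push_cast
        rw [abs_of_nonneg (by linarith)]
        ring
    set m : Fin 4 → ℤ := Function.update n j (n j + s) with hm
    have hsum : ∑ i, m i = ∑ i, n i + s := by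
      have h1 : ∀ i, m i = n i + (if i = j then s else 0) := by
        intro i
        by_cases h : i = j
        · subst h
          simp [hm]
        · simp [hm, h]
      rw [Finset.sum_congr rfl (fun i _ => h1 i), Finset.sum_add_distrib]
      simp
    have hev2 : Even (∑ i, m i) := by
      rw [hsum]
      rw [Int.not_even_iff_odd] at hev
      rcases hs1 with rfl | rfl
      · exact hev.add_odd odd_one
      · exact hev.add_odd (by decide)
    refine ⟨WithLp.toLp 2 (fun i => (m i : ℝ)), ⟨m, fun i => rfl, hev2⟩, ?_⟩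
    set M : ℝ := |q j - n j| with hM
    have hM2 : M ≤ 1 / 2 := he j
    have hM0 : 0 ≤ M := abs_nonneg _
    have h1 : ‖(WithLp.toLp 2 (fun i => (m i : ℝ)) : EuclideanSpace ℝ (Fin 4)) - q‖ ^ 2 ≤ 1 := by
      rw [EuclideanSpace.norm_sq_eq]
      have h2 : ∀ i, ‖((WithLp.toLp 2 (fun i => (m i : ℝ)) : EuclideanSpace ℝ (Fin 4)) - q) i‖ ^ 2
          ≤ M ^ 2 + (if i = j then (1 - M) ^ 2 - M ^ 2 else 0) := by
        intro i
        have h3 : ((WithLp.toLp 2 (fun i => (m i : ℝ)) : EuclideanSpace ℝ (Fin 4)) - q) i =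
          m i - q i := rfl
        rw [h3, Real.norm_eq_abs, abs_sub_comm]
        by_cases h : i = j
        · subst h
          have h4 : q i - (m i : ℝ) = q i - n i - s := by
            simp [hm]; ring
          rw [h4, hs2, if_pos rfl]
          apply le_of_eq
          ring
        · have h4 : (m i : ℝ) = n i := by simp [hm, h]
          rw [h4, if_neg h, add_zero]
          have h5 := hj i (Finset.mem_univ i)
          have h6 := abs_nonneg (q i - n i)
          exact pow_le_pow_left₀ h6 h5 2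
      calc ∑ i, ‖((WithLp.toLp 2 (fun i => (m i : ℝ)) : EuclideanSpace ℝ (Fin 4)) - q) i‖ ^ 2
          ≤ ∑ i : Fin 4, (M ^ 2 + (if i = j then (1 - M) ^ 2 - M ^ 2 else 0)) :=
            Finset.sum_le_sum (fun i _ => h2 i)
        _ = 4 * M ^ 2 + ((1 - M) ^ 2 - M ^ 2) := by
            rw [Finset.sum_add_distrib]
            simp
        _ ≤ 1 := by nlinarith
    have h0 := norm_nonneg ((WithLp.toLp 2 (fun i => (m i : ℝ)) : EuclideanSpace ℝ (Fin 4)) - q)
    nlinarith

theorem d4Del : D4Del := by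
  have hs : Real.sqrt 2 ^ 2 = 2 := Real.sq_sqrt (by norm_num)
  have hs0 : 0 < Real.sqrt 2 := Real.sqrt_pos.2 (by norm_num)
  refine ⟨⟨by positivity, by nlinarith, ?_, ?_⟩, ?_⟩
  · rintro c x ⟨hx, hxc⟩ y ⟨hy, hyc⟩
    by_contra hne
    have h1 := D4.two_le (D4.sub_mem hx hy) (sub_ne_zero.2 hne)
    rw [Metric.mem_ball] at hxc hyc
    have h2 : dist x y < Real.sqrt 2 := by
      have := dist_triangle_right x y c
      linarith
    rw [dist_eq_norm] at h2
    have h3 := norm_nonneg (x - y)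
    nlinarith
  · intro c
    obtain ⟨x, hx, hxc⟩ := D4.cover c
    refine ⟨x, hx, ?_⟩
    rw [Metric.mem_closedBall, dist_eq_norm]
    exact hxc
  · intro ρ x hx y hy
    refine ⟨IsometryEquiv.addRight (y - x), by simp, ?_⟩
    ext z
    constructor
    · rintro ⟨w, ⟨hw, hwd⟩, rfl⟩
      refine ⟨?_, ?_⟩
      · simp only [IsometryEquiv.addRight_apply]
        exact D4.add_mem hw (D4.sub_mem hy hx)
      · simp only [IsometryEquiv.addRight_apply]
        have h1 : dist (w + (y - x)) y = dist w x := by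
          rw [dist_eq_norm, dist_eq_norm]
          congr 1
          abel
        rw [h1]
        exact hwd
    · rintro ⟨hz, hzd⟩
      refine ⟨z - (y - x), ⟨D4.sub_mem hz (D4.sub_mem hy hx), ?_⟩, by simp⟩
      have h1 : dist (z - (y - x)) x = dist z y := by
        rw [dist_eq_norm, dist_eq_norm]
        congr 1
        abel
      rw [h1]
      exact hzd

end Pool.Agent.Helper41.Cluster4
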