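import Pool.Agent.Helper65.Delone.Conv

/-! Definitions for the exact value of the order of the symmetry group of a `2R`-cluster in
dimension four. `SepDense`, `Con`, `Iso`, `fixSpace`, `IsDelaunay`, `clusterGroup`,
`MutuallyCongruent` come from `Pool.Agent.Helper65.Delone`. -/

namespace Pool.Agent.Helper41.Cluster4

open Module Pool.Agent.Helper65.Delone
open scoped RealInnerProductSpace

section

variable {E : Type*} [NormedAddCommGroup E] [InnerProductSpace ℝ E]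

/-- The small non-identity cluster symmetries at `x`. -/
def Sm (X : Set E) (L : ℝ) (x : E) : Set (E ≃ₗᵢ[ℝ] E) :=
  {A | Iso X L x x A ∧ A ≠ 1 ∧ ∀ v : E, ‖A v - v‖ ≤ 2 / 15 * ‖v‖}

/-- The situation after the first part of the argument: `W` is the minimal length of a cluster
vector that is moved by a small symmetry, `Q x` is the common fixed plane of the small
symmetries at `x`. -/
structure Fr (X : Set E) (L W : ℝ) (Q : E → Submodule ℝ E) : Prop where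
  W_pos : 0 < W
  W_le : W ≤ L
  S_ne : ∀ x ∈ X, (Sm X L x).Nonempty
  S_fix : ∀ x ∈ X, ∀ A ∈ Sm X L x, ∀ v : E, A v = v ↔ v ∈ Q x
  Q_rank : ∀ x ∈ X, finrank ℝ (Q x) = 2
  near : ∀ x ∈ X, ∀ z ∈ X, ‖z - x‖ < W → z - x ∈ Q x
  partner : ∀ x ∈ X, ∃ y ∈ X, ‖y - x‖ = W ∧ y - x ∉ Q x
  gens : ∀ x ∈ X, ∃ a b : E, x + a ∈ X ∧ x + b ∈ X ∧ ‖a‖ ≤ 2 / 15 * W ∧ ‖b‖ ≤ 2 / 15 * W ∧
    Submodule.span ℝ {a, b} = Q x
  cong : ∀ x ∈ X, ∀ y ∈ X, ∃ B : E ≃ₗᵢ[ℝ] E, Iso X L x y B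

/-- The centres in the second case. -/
structure Cen (X : Set E) (L W : ℝ) (Q : E → Submodule ℝ E) (c : E → E) : Prop where
  mem : ∀ x ∈ X, c x - x ∈ Q x
  norm : ∀ x ∈ X, ‖c x - x‖ ^ 2 = W ^ 2 / 2
  partner : ∀ x ∈ X, ∀ y ∈ X, ‖y - x‖ = W → y - x ∉ Q x → c y = c x ∧ Q y = (Q x)ᗮ
  same : ∀ x ∈ X, ∀ z ∈ X, c z = c x → Q z = Q x ∨ Q z = (Q x)ᗮ
  transport : ∀ x ∈ X, ∀ x' ∈ X, ∀ B : E ≃ₗᵢ[ℝ] E, Iso X L x x' B → ∀ z ∈ X, ‖z - x‖ ≤ L - W →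
    c (x' + B (z - x)) = x' + B (c z - x)

/-- Orientation preserving. -/
def Rot (A : E ≃ₗᵢ[ℝ] E) : Prop := 0 < LinearMap.det (A.toLinearEquiv : E →ₗ[ℝ] E)

theorem Rot.mul {A B : E ≃ₗᵢ[ℝ] E} (hA : Rot A) (hB : Rot B) : Rot (A * B) := by
  have h : ((A * B).toLinearEquiv : E →ₗ[ℝ] E) =
      (A.toLinearEquiv : E →ₗ[ℝ] E) * (B.toLinearEquiv : E →ₗ[ℝ] E) := rfl
  unfold Rot
  rw [h, map_mul]
  exact mul_pos hA hB

theorem rot_one : Rot (1 : E ≃ₗᵢ[ℝ] E) := by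
  have h : ((1 : E ≃ₗᵢ[ℝ] E).toLinearEquiv : E →ₗ[ℝ] E) = 1 := rfl
  unfold Rot
  rw [h, map_one]
  exact one_pos

theorem Rot.inv {A : E ≃ₗᵢ[ℝ] E} (hA : Rot A) : Rot A⁻¹ := by
  have h : ((A⁻¹).toLinearEquiv : E →ₗ[ℝ] E) * (A.toLinearEquiv : E →ₗ[ℝ] E) = 1 := by
    ext v
    exact A.symm_apply_apply v
  have h2 := congrArg LinearMap.det h
  rw [map_mul, map_one] at h2
  unfold Rot at hA ⊢
  by_contra hcon
  push Not at hcon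
  nlinarith

/-- The stabilizer of `y` in `G`. -/
def stb (G : Subgroup (E ≃ₗᵢ[ℝ] E)) (y : E) : Subgroup (E ≃ₗᵢ[ℝ] E) where
  carrier := {A | A ∈ G ∧ A y = y}
  mul_mem' := by
    rintro A B ⟨hA, hA'⟩ ⟨hB, hB'⟩
    refine ⟨G.mul_mem hA hB, ?_⟩
    change A (B y) = y
    rw [hB', hA']
  one_mem' := ⟨G.one_mem, rfl⟩
  inv_mem' := by
    rintro A ⟨hA, hA'⟩
    refine ⟨G.inv_mem hA, ?_⟩
    change A.symm y = y
    conv_lhs => rw [← hA']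
    exact A.symm_apply_apply y

/-- The orientation preserving elements of `G`. -/
def rt (G : Subgroup (E ≃ₗᵢ[ℝ] E)) : Subgroup (E ≃ₗᵢ[ℝ] E) where
  carrier := {A | A ∈ G ∧ Rot A}
  mul_mem' := by
    rintro A B ⟨hA, hA'⟩ ⟨hB, hB'⟩
    exact ⟨G.mul_mem hA hB, hA'.mul hB'⟩
  one_mem' := ⟨G.one_mem, rot_one⟩
  inv_mem' := by
    rintro A ⟨hA, hA'⟩
    exact ⟨G.inv_mem hA, hA'.inv⟩

theorem mem_stb {G : Subgroup (E ≃ₗᵢ[ℝ] E)} {y : E} {A : E ≃ₗᵢ[ℝ] E} :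
    A ∈ stb G y ↔ A ∈ G ∧ A y = y := Iff.rfl

theorem mem_rt {G : Subgroup (E ≃ₗᵢ[ℝ] E)} {A : E ≃ₗᵢ[ℝ] E} :
    A ∈ rt G ↔ A ∈ G ∧ Rot A := Iff.rfl

/-- Finitely many unit vectors at mutual distance at least one. -/
structure UCode (N : Set E) : Prop where
  fin : N.Finite
  norm : ∀ v ∈ N, ‖v‖ = 1
  sep : ∀ v ∈ N, ∀ w ∈ N, v ≠ w → ⟪v, w⟫ ≤ 1 / 2

/-- `N` is invariant under `G`. -/
def Inv (G : Subgroup (E ≃ₗᵢ[ℝ] E)) (N : Set E) : Prop := ∀ A ∈ G, ∀ v ∈ N, A v ∈ N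

end

/-- The checkerboard lattice in dimension four. -/
def D4 : Set (EuclideanSpace ℝ (Fin 4)) :=
  {x | ∃ n : Fin 4 → ℤ, (∀ i, x i = n i) ∧ Even (∑ i, n i)}

end Pool.Agent.Helper41.Cluster4
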