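import Pool.Agent.Helper41.Cluster4.Defs

/-! Statements of the steps. -/

namespace Pool.Agent.Helper41.Cluster4

open Module Pool.Agent.Helper65.Delone
open scoped RealInnerProductSpace

section

variable (E : Type*) [NormedAddCommGroup E] [InnerProductSpace ℝ E]

/-! ### Part 1: no small symmetries -/

/-- two facts on small isometries -/
def SmallFacts : Prop :=
  ∀ (A : E ≃ₗᵢ[ℝ] E), (∀ v : E, ‖A v - v‖ ≤ 2 / 15 * ‖v‖) →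
    (∀ v : E, A v ≠ v → LinearIndependent ℝ ![A v - v, A.symm v - v]) ∧
    (A ≠ 1 → finrank ℝ E = 4 → finrank ℝ (fixSpace A) ≤ 2)

/-- the frame exists -/
def ExFr : Prop := finrank ℝ E = 4 →
  ∀ (X : Set E) (D R : ℝ), 0 < D → SepDense X D R →
    (∀ x ∈ X, ∀ y ∈ X, ∃ B : E ≃ₗᵢ[ℝ] E, Iso X (2 * R) x y B) →
    ∀ x₀ ∈ X, (Sm X (2 * R) x₀).Nonempty →
    ∃ (W : ℝ) (Q : E → Submodule ℝ E), Fr X (2 * R) W Q

/-- near points that are moved have the orthogonal plane -/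
def StepI4 : Prop := finrank ℝ E = 4 →
  ∀ (X : Set E) (L W : ℝ) (Q : E → Submodule ℝ E), Fr X L W Q →
    ∀ x ∈ X, ∀ z ∈ X, ‖z - x‖ ≤ L → ‖z - x‖ < 15 / 2 * W → z - x ∉ Q x → Q z = (Q x)ᗮ

/-- cluster isomorphisms carry `Q` to `Q` -/
def Transp4 : Prop :=
  ∀ (X : Set E) (L W : ℝ) (Q : E → Submodule ℝ E), Fr X L W Q →
    ∀ x ∈ X, ∀ x' ∈ X, ∀ B : E ≃ₗᵢ[ℝ] E, Iso X L x x' B →
    ∀ z ∈ X, ‖z - x‖ ≤ L - 2 / 15 * W →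
    x' + B (z - x) ∈ X ∧ ∀ v : E, v ∈ Q z ↔ B v ∈ Q (x' + B (z - x))

/-- third points near a good pair -/
def LemC4 : Prop := finrank ℝ E = 4 →
  ∀ (X : Set E) (L W : ℝ) (Q : E → Submodule ℝ E), Fr X L W Q →
    ∀ x ∈ X, ∀ y ∈ X, ∀ z ∈ X, ∀ c : E, Q y = (Q x)ᗮ → c - x ∈ Q x → c - y ∈ Q y → z ≠ c →
    ‖z - x‖ ≤ L → ‖z - x‖ < 15 / 2 * W → ‖z - y‖ ≤ L → ‖z - y‖ < 15 / 2 * W →
    (z - c ∈ Q x ∧ Q z = Q x) ∨ (z - c ∈ Q y ∧ Q z = Q y)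

/-- Case I, first configuration -/
def CaseInit4 : Prop := finrank ℝ E = 4 →
  ∀ (X : Set E) (D R W : ℝ) (Q : E → Submodule ℝ E),
    0 < D → SepDense X D R → Fr X (2 * R) W Q → 2 * R < 15 / 2 * W → X.Nonempty →
    ∃ q c : E, ∃ x ∈ Con X q, ∃ y ∈ Con X q, Q y = (Q x)ᗮ ∧
      c - x ∈ Q x ∧ c - y ∈ Q y ∧ c ≠ x ∧ c ≠ y

/-- Case I is impossible -/
def CaseI4 : Prop := finrank ℝ E = 4 →
  ∀ (X : Set E) (D R W : ℝ) (Q : E → Submodule ℝ E),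
    0 < D → SepDense X D R → Fr X (2 * R) W Q → 2 * R < 15 / 2 * W → X.Nonempty → False

/-- Case II, the centres exist -/
def Centers4 : Prop := finrank ℝ E = 4 →
  ∀ (X : Set E) (L W : ℝ) (Q : E → Submodule ℝ E), Fr X L W Q → 15 / 2 * W ≤ L →
    ∃ c : E → E, Cen X L W Q c

/-- Case II, near points -/
def PairClaim : Prop := finrank ℝ E = 4 →
  ∀ (X : Set E) (D R W : ℝ) (Q : E → Submodule ℝ E) (c : E → E),
    0 < D → SepDense X D R → Fr X (2 * R) W Q → 15 / 2 * W ≤ 2 * R → Cen X (2 * R) W Q c →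
    (∀ x ∈ X, ∀ y ∈ X, ∀ z ∈ X, ‖y - x‖ = W → y - x ∉ Q x → ‖z - x‖ ≤ 2 * R - W →
      ‖z - y‖ ≤ 2 * R - W → c z = c x) ∧
    (∀ x ∈ X, ∀ z ∈ X, ‖z - x‖ ≤ 2 * R - W → c z - c x ∈ Q x)

/-- Case II, points of a given type in a given direction -/
def LemD : Prop := finrank ℝ E = 4 →
  ∀ (X : Set E) (D R W : ℝ) (Q : E → Submodule ℝ E) (c : E → E),
    0 < D → SepDense X D R → Fr X (2 * R) W Q → 15 / 2 * W ≤ 2 * R → Cen X (2 * R) W Q c →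
    ∀ x ∈ X, ∀ u ∈ Q x, ∃ z ∈ X, c z = c x ∧ Q z = Q x ∧
      99 / 100 * ‖c x - x‖ * ‖u‖ ≤ ⟪z - c x, u⟫

/-- separation against covering radius in dimension four -/
def LemN5 : Prop := finrank ℝ E = 4 →
  ∀ (C : Set E) (D t : ℝ), 0 < D → SepDense C D t →
    ∃ x ∈ C, ∃ y ∈ C, x ≠ y ∧ ‖x - y‖ ^ 2 ≤ 5 / 2 * t ^ 2

/-- Case II is impossible -/
def CaseII4 : Prop := finrank ℝ E = 4 →
  ∀ (X : Set E) (D R W : ℝ) (Q : E → Submodule ℝ E),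
    0 < D → SepDense X D R → Fr X (2 * R) W Q → 15 / 2 * W ≤ 2 * R → X.Nonempty → False

/-- no small symmetries -/
def NoSmall : Prop := finrank ℝ E = 4 →
  ∀ (X : Set E) (D R : ℝ), 0 < D → SepDense X D R →
    (∀ x ∈ X, ∀ y ∈ X, ∃ B : E ≃ₗᵢ[ℝ] E, Iso X (2 * R) x y B) →
    ∀ x ∈ X, ∀ A : E ≃ₗᵢ[ℝ] E, Iso X (2 * R) x x A → A ≠ 1 →
      ∃ v : E, 2 / 15 * ‖v‖ < ‖A v - v‖

/-! ### Part 2: the order of the group -/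

/-- fixed spaces of rotations; rotations have index at most two -/
def FixFacts : Prop := finrank ℝ E = 4 →
  (∀ A : E ≃ₗᵢ[ℝ] E, Rot A → 3 ≤ finrank ℝ (fixSpace A) → A = 1) ∧
  (∀ A : E ≃ₗᵢ[ℝ] E, Rot A → A ≠ 1 → ∀ y : E, y ≠ 0 → A y = y →
    finrank ℝ (fixSpace A) = 2) ∧
  (∀ G : Subgroup (E ≃ₗᵢ[ℝ] E), Finite G →
    Nat.card G = Nat.card (rt G) ∨ Nat.card G = 2 * Nat.card (rt G))

/-- `n` points on a circle -/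
def Circle4 : Prop := ∀ (P : Submodule ℝ E), finrank ℝ P = 2 →
  ∀ (ρ : ℝ) (s : Finset E) (n : ℕ), (∀ v ∈ s, v ∈ P ∧ ‖v‖ = ρ) → 2 ≤ n → n ≤ s.card →
    ∃ v ∈ s, ∃ w ∈ s, v ≠ w ∧ ρ ^ 2 * Real.cos (2 * Real.pi / n) ≤ ⟪v, w⟫

/-- rotations about a fixed plane -/
def RotPlane : Prop := finrank ℝ E = 4 →
  ∀ (H : Subgroup (E ≃ₗᵢ[ℝ] E)) (P : Submodule ℝ E), Finite H → finrank ℝ P = 2 →
    (∀ A ∈ H, ∀ v ∈ P, A v = v) → (∀ A ∈ H, Rot A) →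
    ((∀ A ∈ H, A ≠ 1 → ∃ v : E, 2 / 15 * ‖v‖ < ‖A v - v‖) → Nat.card H ≤ 47) ∧
    (∀ N : Set E, UCode N → Inv H N → (∃ w ∈ N, w ∉ P) → Nat.card H ≤ 6)

/-- at most 48 unit vectors at mutual distance at least one -/
def HalfBall : Prop := finrank ℝ E = 4 → ∀ N : Set E, UCode N → N.ncard ≤ 48

/-- finite rotation groups about a point of a three-dimensional space: orders -/
def PoleGeom : Prop := finrank ℝ E = 4 →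
  ∀ (Γ : Subgroup (E ≃ₗᵢ[ℝ] E)) (y : E), Finite Γ → ‖y‖ = 1 → (∀ A ∈ Γ, Rot A ∧ A y = y) →
    ((∀ u : E, ‖u‖ = 1 → ⟪u, y⟫ = 0 → Nat.card (stb Γ u) ≤ 47) → Nat.card Γ ≤ 94) ∧
    ((∀ u : E, ‖u‖ = 1 → ⟪u, y⟫ = 0 → Nat.card (stb Γ u) ≤ 6) →
      Nat.card Γ ≤ 12 ∨
      (Nat.card Γ = 24 ∧
        {u : E | ‖u‖ = 1 ∧ ⟪u, y⟫ = 0 ∧ Nat.card (stb Γ u) = 4}.ncard = 6) ∨
      (Nat.card Γ = 60 ∧
        (∃ u : E, ‖u‖ = 1 ∧ ⟪u, y⟫ = 0 ∧ Nat.card (stb Γ u) = 5) ∧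
        ∀ u : E, ‖u‖ = 1 → ⟪u, y⟫ = 0 →
          Nat.card (stb Γ u) ∈ ({1, 2, 3, 5} : Set ℕ)))

/-- a group of order 48 with rotation subgroup of order 24 consists of the signed permutations -/
def Octa : Prop := finrank ℝ E = 4 →
  ∀ (H : Subgroup (E ≃ₗᵢ[ℝ] E)) (y : E), Finite H → ‖y‖ = 1 → (∀ A ∈ H, A y = y) →
    Nat.card (rt H) = 24 → Nat.card H = 48 →
    {u : E | ‖u‖ = 1 ∧ ⟪u, y⟫ = 0 ∧ Nat.card (stb (rt H) u) = 4}.ncard = 6 →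
    ∃ e : Fin 3 → E, Orthonormal ℝ e ∧ (∀ i, ⟪e i, y⟫ = 0) ∧
      ∀ (σ : Equiv.Perm (Fin 3)) (ε : Fin 3 → ℝ), (∀ i, ε i = 1 ∨ ε i = -1) →
        ∃ A ∈ H, ∀ i, A (e i) = ε i • e (σ i)

/-- a code invariant under the signed permutations has at most 24 points -/
def OctaN : Prop := finrank ℝ E = 4 →
  ∀ (N : Set E) (y : E) (e : Fin 3 → E) (H : Subgroup (E ≃ₗᵢ[ℝ] E)),
    UCode N → y ∈ N → Inv H N → (∀ A ∈ H, A y = y) → Orthonormal ℝ e →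
    (∀ i, ⟪e i, y⟫ = 0) →
    (∀ (σ : Equiv.Perm (Fin 3)) (ε : Fin 3 → ℝ), (∀ i, ε i = 1 ∨ ε i = -1) →
        ∃ A ∈ H, ∀ i, A (e i) = ε i • e (σ i)) →
    N.ncard ≤ 24

/-- five rotations about a plane: at most 15 points outside the plane -/
def Pent : Prop := finrank ℝ E = 4 →
  ∀ (C : Subgroup (E ≃ₗᵢ[ℝ] E)) (y u : E) (N : Set E), Finite C → ‖y‖ = 1 → ‖u‖ = 1 →
    ⟪u, y⟫ = 0 → (∀ A ∈ C, Rot A ∧ A y = y ∧ A u = u) → Nat.card C = 5 → UCode N → Inv C N →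
    {w | w ∈ N ∧ w ∉ Submodule.span ℝ {y, u}}.ncard ≤ 15

/-- the icosahedral case -/
def Icosa : Prop := finrank ℝ E = 4 →
  ∀ (G : Subgroup (E ≃ₗᵢ[ℝ] E)) (N : Set E) (y : E), Finite G → UCode N → Inv G N → y ∈ N →
    Nat.card (rt (stb G y)) = 60 →
    (∃ u : E, ‖u‖ = 1 ∧ ⟪u, y⟫ = 0 ∧ Nat.card (stb (rt (stb G y)) u) = 5) →
    (∀ u : E, ‖u‖ = 1 → ⟪u, y⟫ = 0 →
      Nat.card (stb (rt (stb G y)) u) ∈ ({1, 2, 3, 5} : Set ℕ)) →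
    Nat.card G ≤ 240

/-- the code does not span -/
def Low : Prop := finrank ℝ E = 4 →
  ∀ (G : Subgroup (E ≃ₗᵢ[ℝ] E)) (N : Set E), Finite G → UCode N → Inv G N → N.Nonempty →
    (∀ A ∈ G, A ≠ 1 → ∃ v : E, 2 / 15 * ‖v‖ < ‖A v - v‖) → Submodule.span ℝ N ≠ ⊤ →
    Nat.card G ≤ 1152

/-- the code spans -/
def Top : Prop := finrank ℝ E = 4 →
  ∀ (G : Subgroup (E ≃ₗᵢ[ℝ] E)) (N : Set E), Finite G → UCode N → Inv G N →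
    Submodule.span ℝ N = ⊤ → Nat.card G ≤ 1152

/-- the upper bound in vector form -/
def Upper : Prop := finrank ℝ E = 4 →
  ∀ (X : Set E) (D R : ℝ), 0 < D → SepDense X D R →
    (∀ x ∈ X, ∀ y ∈ X, ∃ B : E ≃ₗᵢ[ℝ] E, Iso X (2 * R) x y B) →
    ∀ x ∈ X, ∀ G : Subgroup (E ≃ₗᵢ[ℝ] E), (∀ A ∈ G, Iso X (2 * R) x x A) →
      Finite G ∧ Nat.card G ≤ 1152

end

/-- counting poles: the orders of the finite rotation groups -/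
def PoleCount.{u, v} : Prop :=
  ∀ (Γ : Type u) (P : Type v) [Group Γ] [MulAction Γ P] [Finite Γ] [Finite P],
    (∀ g : Γ, g ≠ 1 → Nat.card (MulAction.fixedBy P g) = 2) →
    (∀ p : P, Nat.card (MulAction.stabilizer Γ p) ≠ 1) →
    ((∀ p : P, Nat.card (MulAction.stabilizer Γ p) ≤ 47) → Nat.card Γ ≤ 94) ∧
    ((∀ p : P, Nat.card (MulAction.stabilizer Γ p) ≤ 6) →
      Nat.card Γ ≤ 12 ∨
      (Nat.card Γ = 24 ∧ {p : P | Nat.card (MulAction.stabilizer Γ p) = 4}.ncard = 6) ∨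
      (Nat.card Γ = 60 ∧ (∃ p : P, Nat.card (MulAction.stabilizer Γ p) = 5) ∧
        ∀ p : P, Nat.card (MulAction.stabilizer Γ p) ∈ ({2, 3, 5} : Set ℕ)))

/-! ### Part 3: the checkerboard lattice -/

/-- the checkerboard lattice is a Delaunay set with congruent clusters -/
def D4Del : Prop := IsDelaunay D4 (Real.sqrt 2 / 2) 1 ∧ ∀ ρ : ℝ, MutuallyCongruent D4 ρ

/-- it has 1152 cluster symmetries at the origin -/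
def D4Card : Prop :=
  ∀ ρ : ℝ, ∃ f : Fin 1152 → clusterGroup D4 0 ρ, Function.Injective f

end Pool.Agent.Helper41.Cluster4
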