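import Pool.Agent.Helper41.Cluster4.Goals
import Pool.Agent.Helper41.Cluster4.Tools

/-! Packet TO: the code spans. -/

namespace Pool.Agent.Helper41.Cluster4

open Module Pool.Agent.Helper65.Delone
open scoped RealInnerProductSpace

variable {E : Type*} [NormedAddCommGroup E] [InnerProductSpace ℝ E] [FiniteDimensional ℝ E]

theorem finrank_span_pair_le (y u : E) : finrank ℝ (Submodule.span ℝ {y, u}) ≤ 2 := by
  classical
  have h := finrank_span_finset_le_card (R := ℝ) ({y, u} : Finset E)
  have h2 : (({y, u} : Finset E) : Set E) = {y, u} := by simp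
  unfold Set.finrank at h
  rw [h2] at h
  exact h.trans Finset.card_le_two

theorem finrank_span_pair {y u : E} (hy : ‖y‖ = 1) (hu : ‖u‖ = 1) (huy : ⟪u, y⟫ = 0) :
    finrank ℝ (Submodule.span ℝ {y, u}) = 2 := by
  have hli : LinearIndependent ℝ ![y, u] := by
    have ho : Orthonormal ℝ ![y, u] := by
      constructor
      · intro i
        fin_cases i
        · exact hy
        · exact hu
      · intro i j hij
        fin_cases i <;> fin_cases j
        · exact absurd rfl hij
        · change ⟪y, u⟫ = 0
          rw [real_inner_comm]; exact huy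
        · exact huy
        · exact absurd rfl hij
    exact ho.linearIndependent
  have h := finrank_span_eq_card hli
  have hr : Set.range ![y, u] = {y, u} := by
    rw [Matrix.range_cons, Matrix.range_cons, Matrix.range_empty, Set.union_empty]
    rfl
  rw [hr] at h
  simpa using h

theorem topCase (hF : FixFacts E) (hR : RotPlane E) (hB : HalfBall E) (hG : PoleGeom E)
    (hO : Octa E) (hN : OctaN E) (hI : Icosa E) : Top E := by
  intro hd G N hGf hU hInv hspan
  have hNne : N.Nonempty := by
    rw [Set.nonempty_iff_ne_empty]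
    intro h0
    rw [h0, Submodule.span_empty] at hspan
    have := finrank_top ℝ E
    rw [← hspan, finrank_bot] at this
    omega
  obtain ⟨y, hy⟩ := hNne
  have hy1 : ‖y‖ = 1 := hU.norm y hy
  have hHf : Finite (stb G y) := finite_stb hGf y
  have hRf : Finite (rt (stb G y)) := finite_rt hHf
  have hGle : Nat.card G ≤ N.ncard * Nat.card (stb G y) :=
    card_le_mul_stb hGf y hU.fin (fun A hA => hInv A hA y hy)
  have h48 := hB hd N hU
  have h2 := (hF hd).2.2 (stb G y) hHf
  have hstab6 : ∀ u : E, ‖u‖ = 1 → ⟪u, y⟫ = 0 → Nat.card (stb (rt (stb G y)) u) ≤ 6 := by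
    intro u hu huy
    have hP := finrank_span_pair hy1 hu huy
    have hfin : Finite (stb (rt (stb G y)) u) := finite_stb hRf u
    have h3 := hR hd (stb (rt (stb G y)) u) (Submodule.span ℝ {y, u}) hfin hP ?_ ?_
    · refine h3.2 N hU ?_ ?_
      · intro A hA v hv
        exact hInv A hA.1.1.1 v hv
      · by_contra hcon
        push Not at hcon
        have h4 : (⊤ : Submodule ℝ E) ≤ Submodule.span ℝ {y, u} := by
          rw [← hspan, Submodule.span_le]
          exact hcon
        have h5 : finrank ℝ E = 2 := by
          rw [← hP, top_le_iff.1 h4, finrank_top]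
        omega
    · intro A hA v hv
      have hle : Submodule.span ℝ {y, u} ≤ fixSpace A := by
        rw [Submodule.span_le]
        intro w hw
        rcases hw with rfl | hw
        · exact hA.1.1.2
        · rw [Set.mem_singleton_iff] at hw
          rw [hw]
          exact hA.2
      exact hle hv
    · intro A hA
      exact hA.1.2
  have h6 := (hG hd (rt (stb G y)) y hRf hy1 (fun A hA => ⟨hA.2, hA.1.2⟩)).2 hstab6
  rcases h6 with h12 | ⟨h24, h4p⟩ | ⟨h60, h5p, hall⟩
  · have h7 : Nat.card (stb G y) ≤ 24 := by omega
    calc Nat.card G ≤ N.ncard * Nat.card (stb G y) := hGle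
      _ ≤ 48 * 24 := Nat.mul_le_mul h48 h7
      _ = 1152 := by norm_num
  · rcases h2 with h2 | h2
    · have h7 : Nat.card (stb G y) ≤ 24 := by omega
      calc Nat.card G ≤ N.ncard * Nat.card (stb G y) := hGle
        _ ≤ 48 * 24 := Nat.mul_le_mul h48 h7
        _ = 1152 := by norm_num
    · have h7 : Nat.card (stb G y) = 48 := by omega
      obtain ⟨e, he, hey, hsig⟩ := hO hd (stb G y) y hHf hy1 (fun A hA => hA.2) h24 h7 h4p
      have h8 := hN hd N y e (stb G y) hU hy (fun A hA v hv => hInv A hA.1 v hv)
        (fun A hA => hA.2) he hey hsig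
      calc Nat.card G ≤ N.ncard * Nat.card (stb G y) := hGle
        _ ≤ 24 * 48 := Nat.mul_le_mul h8 h7.le
        _ = 1152 := by norm_num
  · have := hI hd G N y hGf hU hInv hy h60 h5p hall
    omega

end Pool.Agent.Helper41.Cluster4
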