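import Pool.Agent.Helper41.Cluster4.Asm
import Pool.Agent.Helper41.Cluster4.TopCase
import Pool.Agent.Helper41.Cluster4.D4Del
import Pool.Agent.Helper65.Delone.A
import Pool.Agent.Helper65.Delone.B
import Pool.Agent.Helper65.Delone.C
import Pool.Agent.Helper65.Delone.H
import Pool.Agent.Helper31.Cluster4.S
import Pool.Agent.Helper85.Cluster4.F
import Pool.Agent.Helper90.Cl.PacketI
import Pool.Agent.Helper6.Cluster4.J0
import Pool.Agent.Helper77.Cluster4.CaseI4
import Pool.Agent.Helper15.Cluster4.K
import Pool.Agent.Helper86.Cluster4.P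
import Pool.Agent.Helper54.Cluster4.D
import Pool.Agent.Helper69.Cl4.LemN5
import Pool.Agent.Helper74.C4.L
import Pool.Agent.Helper6.Cluster4.FX
import Pool.Agent.Helper40.Cl4.Circle
import Pool.Agent.Helper13.C4.RP
import Pool.Agent.Helper3.Cluster4.HB
import Pool.Agent.Helper57.Cluster4.Pole
import Pool.Agent.Helper26.Cluster4.PG
import Pool.Agent.Helper30.Cl4.OC
import Pool.Agent.Helper70.C4.OctaN
import Pool.Agent.Helper73.Cluster4.PE
import Pool.Agent.Helper96.Cl4.IC
import Pool.Agent.Helper62.Cluster4.LO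
import Pool.Agent.Helper70.C4.D4Card

/-! All steps together. -/

namespace Pool.Agent.Helper41.Cluster4

open Module Pool.Agent.Helper65.Delone

section

variable {E : Type*} [NormedAddCommGroup E] [InnerProductSpace ℝ E] [FiniteDimensional ℝ E]

theorem exFr : ExFr E :=
  Pool.Agent.Helper85.Cluster4.exFr Pool.Agent.Helper31.Cluster4.smallFacts finiteNear
    (existsPos lemM)

theorem stepI4 : StepI4 E := Pool.Agent.Helper90.Cl.stepI4 Pool.Agent.Helper31.Cluster4.smallFacts

theorem lemC4 : LemC4 E := Pool.Agent.Helper90.Cl.lemC4 stepI4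

theorem transp4 : Transp4 E := Pool.Agent.Helper90.Cl.transp4

theorem caseI4 : CaseI4 E :=
  Pool.Agent.Helper77.Cluster4.caseI4 finiteNear lemM stepI4 lemC4
    (finiteOrder finiteNear (existsPos lemM)) average
    (Pool.Agent.Helper6.Cluster4.caseInit4 lemM stepI4)

theorem caseII4 : CaseII4 E :=
  Pool.Agent.Helper74.C4.caseII4 (Pool.Agent.Helper69.Cl4.lemN5 lemM)
    (Pool.Agent.Helper15.Cluster4.centers4 transp4 stepI4 lemC4)
    (Pool.Agent.Helper86.Cluster4.pairClaim finiteNear transp4)
    (Pool.Agent.Helper54.Cluster4.lemD finiteNear)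

theorem noSmallThm : NoSmall E := noSmall exFr caseI4 caseII4

theorem fixFacts : FixFacts E := Pool.Agent.Helper6.Cluster4.fixFacts

theorem circle4 : Circle4 E := Pool.Agent.Helper40.Cl4.circle4

theorem rotPlane : RotPlane E := Pool.Agent.Helper13.C4.rotPlane fixFacts circle4

theorem poleGeom : PoleGeom E :=
  Pool.Agent.Helper26.Cluster4.poleGeom fixFacts Pool.Agent.Helper57.Cluster4.poleCount

theorem lowThm : Low E :=
  Pool.Agent.Helper62.Cluster4.low fixFacts circle4 rotPlane
    Pool.Agent.Helper3.Cluster4.halfBall poleGeom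

theorem topThm : Top E :=
  topCase fixFacts rotPlane Pool.Agent.Helper3.Cluster4.halfBall poleGeom
    (Pool.Agent.Helper30.Cl4.octa fixFacts) Pool.Agent.Helper70.C4.octaN
    (Pool.Agent.Helper96.Cl4.icosa fixFacts circle4
      (Pool.Agent.Helper73.Cluster4.pent fixFacts circle4))

theorem upperThm : Upper E := upper finiteNear (existsPos lemM) noSmallThm lowThm topThm

end

theorem exact :
    (∀ (X : Set (EuclideanSpace ℝ (Fin 4))) (r R : ℝ), IsDelaunay X r R →
      MutuallyCongruent X (2 * R) → ∀ x ∈ X, Finite (clusterGroup X x (2 * R))) ∧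
    IsGreatest {n : ℕ | ∃ (X : Set (EuclideanSpace ℝ (Fin 4))) (r R : ℝ)
      (x : EuclideanSpace ℝ (Fin 4)), IsDelaunay X r R ∧ MutuallyCongruent X (2 * R) ∧ x ∈ X ∧
        n = Nat.card (clusterGroup X x (2 * R))} 1152 :=
  final upperThm d4Del Pool.Agent.Helper70.C4.d4Card

end Pool.Agent.Helper41.Cluster4
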